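import Pool.Agent.BER.StmtsE

/-!
# Squad BER, row HSD: the radial function of a solution
-/

set_option autoImplicit false

namespace Pool.Agent.BER.H19

open Set Filter Topology MeasureTheory
open Pool.Agent.BER

noncomputable section

/-- row HSD -/
theorem hsd : HsdStmt := by
  intro d s y y' hd hs hy hy1 hy2
  obtain ⟨a, ha⟩ : ∃ a : ℝ, a = ((d : ℝ) - 1) / 2 := ⟨_, rfl⟩
  rw [← ha]
  have hmap : ∀ t : ℝ, 0 < t → 0 < s * √t := fun t ht => mul_pos hs (Real.sqrt_pos.2 ht)
  have hx : ∀ t : ℝ, 0 < t → HasDerivAt (fun t => s * √t) (s * (1 / (2 * √t))) t := fun t ht =>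
    (Real.hasDerivAt_sqrt (ne_of_gt ht)).const_mul s
  have hcs : ContDiffOn ℝ ((⊤ : ℕ∞) : WithTop ℕ∞) (fun t => s * √t) (Ioi 0) := by
    intro t ht
    exact (contDiffAt_const.mul (Real.contDiffAt_sqrt (ne_of_gt ht))).contDiffWithinAt
  constructor
  · refine ContDiffOn.mul ?_ ?_
    · intro t ht
      exact (hcs t ht).rpow_const_of_ne (ne_of_gt (hmap t ht))
    · exact hy.comp hcs fun t ht => hmap t ht
  · intro t ht
    obtain ⟨F, hF⟩ : ∃ F : ℝ → ℝ, F = fun t => (s * √t) ^ (-a) * y (s * √t) := ⟨_, rfl⟩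
    obtain ⟨G, hG⟩ : ∃ G : ℝ → ℝ, G = fun t => (s * (1 / (2 * √t))) *
      (-a * (s * √t) ^ (-a - 1) * y (s * √t) + (s * √t) ^ (-a) * y' (s * √t)) := ⟨_, rfl⟩
    have hFG : ∀ t : ℝ, 0 < t → HasDerivAt F (G t) t := by
      intro t ht
      have h1 : HasDerivAt (fun t => (s * √t) ^ (-a))
          (s * (1 / (2 * √t)) * (-a) * (s * √t) ^ (-a - 1)) t :=
        (hx t ht).rpow_const (Or.inl (ne_of_gt (hmap t ht)))
      have h2 : HasDerivAt (fun t => y (s * √t)) (y' (s * √t) * (s * (1 / (2 * √t)))) t :=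
        (hy1 (s * √t) (hmap t ht)).comp t (hx t ht)
      rw [hF, hG]
      refine (h1.mul h2).congr_deriv ?_
      ring
    have hdF : deriv F =ᶠ[𝓝 t] G := by
      filter_upwards [lt_mem_nhds ht] with u hu
      exact (hFG u hu).deriv
    have hGd : HasDerivAt G ((s * (1 / (2 * √t)) * (s * (1 / (2 * √t)))) *
        ((-a) * (-a - 1) * (s * √t) ^ (-a - 1 - 1) * y (s * √t) +
          2 * (-a) * (s * √t) ^ (-a - 1) * y' (s * √t) +
          (s * √t) ^ (-a) * ((cd d / (s * √t) ^ 2 - 1) * y (s * √t))) -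
        s * (1 / (4 * √t ^ 3)) *
          (-a * (s * √t) ^ (-a - 1) * y (s * √t) + (s * √t) ^ (-a) * y' (s * √t))) t := by
      have hst : 0 < √t := Real.sqrt_pos.2 ht
      have h0 : HasDerivAt (fun t => s * (1 / (2 * √t))) (- (s * (1 / (4 * √t ^ 3)))) t := by
        have h := (((Real.hasDerivAt_sqrt (ne_of_gt ht)).const_mul 2).inv
          (by positivity : (2 * √t) ≠ 0)).const_mul s
        have e : (fun t => s * (1 / (2 * √t))) = fun t => s * (2 * √t)⁻¹ := by
          funext u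
          rw [one_div]
        rw [e]
        refine h.congr_deriv ?_
        field_simp
        ring
      have h1 : HasDerivAt (fun t => (s * √t) ^ (-a))
          (s * (1 / (2 * √t)) * (-a) * (s * √t) ^ (-a - 1)) t :=
        (hx t ht).rpow_const (Or.inl (ne_of_gt (hmap t ht)))
      have h1' : HasDerivAt (fun t => (s * √t) ^ (-a - 1))
          (s * (1 / (2 * √t)) * (-a - 1) * (s * √t) ^ (-a - 1 - 1)) t :=
        (hx t ht).rpow_const (Or.inl (ne_of_gt (hmap t ht)))
      have h2 : HasDerivAt (fun t => y (s * √t)) (y' (s * √t) * (s * (1 / (2 * √t)))) t :=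
        (hy1 (s * √t) (hmap t ht)).comp t (hx t ht)
      have h3 : HasDerivAt (fun t => y' (s * √t))
          (((cd d / (s * √t) ^ 2 - 1) * y (s * √t)) * (s * (1 / (2 * √t)))) t :=
        (hy2 (s * √t) (hmap t ht)).comp t (hx t ht)
      rw [hG]
      refine (h0.mul (((h1'.const_mul (-a)).mul h2).add (h1.mul h3))).congr_deriv ?_
      simp only [Pi.add_apply, Pi.mul_apply]
      ring
    have e1 : deriv F t = G t := (hFG t ht).deriv
    have e2 : deriv (deriv F) t = deriv G t := hdF.deriv_eq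
    show 4 * t * deriv (deriv (fun t => (s * √t) ^ (-a) * y (s * √t))) t +
      2 * d * deriv (fun t => (s * √t) ^ (-a) * y (s * √t)) t +
      s ^ 2 * ((s * √t) ^ (-a) * y (s * √t)) = 0
    rw [← hF, e1, e2, hGd.deriv, hG]
    have hst : 0 < √t := Real.sqrt_pos.2 ht
    have hss : √t * √t = t := Real.mul_self_sqrt ht.le
    have hm := hmap t ht
    have p1 : (s * √t) ^ (-a - 1) = (s * √t) ^ (-a) / (s * √t) := Real.rpow_sub_one (ne_of_gt hm) _
    have p2 : (s * √t) ^ (-a - 1 - 1) = (s * √t) ^ (-a) / (s * √t) / (s * √t) := by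
      rw [Real.rpow_sub_one (ne_of_gt hm), p1]
    have hc : cd d = a * (a - 1) := by
      rw [ha]
      show ((d : ℝ) - 1) * (d - 3) / 4 = _
      ring
    have hda : (d : ℝ) = 2 * a + 1 := by rw [ha]; ring
    simp only [p1, p2, hc, hda]
    generalize (s * √t) ^ (-a) = P
    generalize y (s * √t) = Y
    generalize y' (s * √t) = Z
    obtain ⟨r, hr⟩ : ∃ r, r = √t := ⟨_, rfl⟩
    rw [← hr] at hst hss ⊢
    rw [← hss]
    have hs0 : s ≠ 0 := ne_of_gt hs
    have hr0 : r ≠ 0 := ne_of_gt hst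
    field_simp
    ring

end

end Pool.Agent.BER.H19
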