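import Pool.Agent.BER.StmtsE

/-!
# Squad BER, row LOB: solutions of `y'' = (c/x² - 1) y` on `(0, ∞)`
-/

set_option autoImplicit false

namespace Pool.Agent.BER.H19

open Set Filter Topology MeasureTheory
open Pool.Agent.BER

noncomputable section

/-- row LOB -/
theorem lob (lod : LodStmt) : LobStmt := by
  intro c x0 A B hx0
  obtain ⟨Y, hY, hY2, hYA, hYB⟩ := lod (fun t => c + 1 / 4 - Real.exp (2 * t)) (Real.log x0)
    (A / √x0) (√x0 * B - (A / √x0) / 2) (by fun_prop)
  have hYd : ∀ t, HasDerivAt Y (deriv Y t) t := fun t =>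
    ((hY.differentiable (by simp)) t).hasDerivAt
  have hs0 : 0 < √x0 := Real.sqrt_pos.2 hx0
  refine ⟨fun x => √x * Y (Real.log x),
    fun x => (Y (Real.log x) / 2 + deriv Y (Real.log x)) / √x, ?_, ?_, ?_, ?_, ?_⟩
  · refine ContDiffOn.mul ?_ ?_
    · intro x hx
      exact (Real.contDiffAt_sqrt (ne_of_gt hx)).contDiffWithinAt
    · refine hY.comp_contDiffOn ?_
      intro x hx
      exact (Real.contDiffAt_log.2 (ne_of_gt hx)).contDiffWithinAt
  · intro x hx
    have hs : 0 < √x := Real.sqrt_pos.2 hx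
    have hss : √x * √x = x := Real.mul_self_sqrt hx.le
    have h1 : HasDerivAt (fun x => √x) (1 / (2 * √x)) x := Real.hasDerivAt_sqrt (ne_of_gt hx)
    have h2 : HasDerivAt (fun x => Y (Real.log x)) (deriv Y (Real.log x) * x⁻¹) x :=
      (hYd (Real.log x)).comp x (Real.hasDerivAt_log (ne_of_gt hx))
    refine (h1.mul h2).congr_deriv ?_
    have e : x⁻¹ = (√x)⁻¹ * (√x)⁻¹ := by rw [← mul_inv, hss]
    rw [e]
    field_simp
  · intro x hx
    have hs : 0 < √x := Real.sqrt_pos.2 hx
    have hss : √x * √x = x := Real.mul_self_sqrt hx.le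
    have h1 : HasDerivAt (fun x => √x) (1 / (2 * √x)) x := Real.hasDerivAt_sqrt (ne_of_gt hx)
    have h2 : HasDerivAt (fun x => Y (Real.log x)) (deriv Y (Real.log x) * x⁻¹) x :=
      (hYd (Real.log x)).comp x (Real.hasDerivAt_log (ne_of_gt hx))
    have h3 : HasDerivAt (fun x => deriv Y (Real.log x))
        ((c + 1 / 4 - Real.exp (2 * Real.log x)) * Y (Real.log x) * x⁻¹) x :=
      (hY2 (Real.log x)).comp x (Real.hasDerivAt_log (ne_of_gt hx))
    refine (((h2.div_const 2).add h3).div h1 (ne_of_gt hs)).congr_deriv ?_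
    have e1 : Real.exp (2 * Real.log x) = x ^ 2 := by
      rw [two_mul, Real.exp_add, Real.exp_log hx, sq]
    rw [e1]
    simp only [Pi.add_apply]
    obtain ⟨r, hr⟩ : ∃ r, r = √x := ⟨_, rfl⟩
    simp only [← hr] at hs hss ⊢
    generalize Y (Real.log x) = u
    generalize deriv Y (Real.log x) = v
    rw [← hss]
    field_simp
    ring
  · show √x0 * Y (Real.log x0) = A
    rw [hYA]
    field_simp
  · show (Y (Real.log x0) / 2 + deriv Y (Real.log x0)) / √x0 = B
    rw [hYA, hYB]
    field_simp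
    ring

end

end Pool.Agent.BER.H19
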