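import Pool.Agent.BER.Stmts

/-!
# Squad BER, row TMR: the approximate solution as a function of time (compare Helper23_BEN/ASN.lean)
-/

set_option autoImplicit false

namespace Pool.Agent.BER.H19

open Set Filter Topology MeasureTheory
open scoped InnerProductSpace ENNReal
open Pool.Agent.BE01 Pool.Agent.BEL Pool.Agent.BEF Pool.Agent.BEN Pool.Agent.BEH Pool.Agent.BEG
open Pool.Agent.BER

noncomputable section

/-- The leading wave belongs to `TL`. -/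
theorem tmr_TL {X : Type} [NormedCommRing X] [NormedAlgebra ℝ X] (χ : X) (c α β : ℝ) :
    (fun ψ _ => (c * (α * Real.cos ψ + β * Real.sin ψ)) • χ : ℝ → ℝ → X) ∈ TL X 1 := by
  have e : (fun ψ _ => (c * (α * Real.cos ψ + β * Real.sin ψ)) • χ : ℝ → ℝ → X) =
      (fun ψ L => (L ^ 0 * tg false 1 ψ) • ((c * α) • χ)) +
      (fun ψ L => (L ^ 0 * tg true 1 ψ) • ((c * β) • χ)) := by
    funext ψ L
    simp only [Pi.add_apply, tg, cond_true, cond_false, Nat.cast_one, one_mul, pow_zero, smul_smul]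
    rw [← add_smul]
    exact congrArg (fun z : ℝ => z • χ) (by ring)
  rw [e]
  exact Submodule.add_mem _
    (Submodule.subset_span ⟨0, 1, false, (c * α) • χ, odd_one, le_rfl, rfl⟩)
    (Submodule.subset_span ⟨0, 1, true, (c * β) • χ, odd_one, le_rfl, rfl⟩)

/-- One derivative. -/
theorem tmr_step {X : Type} [NormedCommRing X] [NormedAlgebra ℝ X] (lpm : LpmStmt)
    (lpd : LpdStmt) (p : ℕ) (ω : ℝ) (χ : X) (c α β : ℝ) (P B : ℝ → ℝ → ℝ → X)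
    (hB : B ∈ LP X 1 1)
    (hP : ∀ ψ τ L, P ψ τ L = (c * (α * Real.cos ψ + β * Real.sin ψ)) • χ + B ψ τ L) :
    ∃ B' ∈ LP X 1 1, ∀ ψ τ L, Dt p ω P ψ τ L =
      ((c * ω) * (β * Real.cos ψ + (-α) * Real.sin ψ)) • χ + B' ψ τ L := by
  obtain ⟨m1, -, m3, -, -⟩ := lpm.1 X
  obtain ⟨l1, l2, -, l4, -⟩ := lpd X X p ω
  obtain ⟨V, hV⟩ : ∃ V : ℝ → ℝ → X,
      V = fun ψ _ => (c * (α * Real.cos ψ + β * Real.sin ψ)) • χ := ⟨_, rfl⟩
  have hVm : V ∈ TL X 1 := by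
    rw [hV]
    exact tmr_TL χ c α β
  obtain ⟨-, v2, -, -, v5⟩ := l4 1 V hVm
  have v5 := v5 0
  have hA : (fun ψ τ L => τ ^ 0 • V ψ L : ℝ → ℝ → ℝ → X) ∈ LP X 0 1 := m3 1 0 V hVm
  have hB0 : B ∈ LP X 0 1 := m1 0 1 1 1 (by omega) rfl hB
  have hPe : P = fun ψ τ L => τ ^ 0 • V ψ L + B ψ τ L := by
    funext ψ τ L
    rw [hP, hV, pow_zero, one_smul]
  have hD := l2 1 _ hA B hB0
  obtain ⟨V2, hV2⟩ : ∃ V2 : ℝ → ℝ → X,
      V2 = fun ψ L => d2 V ψ L - (((0 : ℕ) : ℝ) + 1 / (2 * (p : ℝ))) • V ψ L := ⟨_, rfl⟩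
  have hV2m : V2 ∈ TL X 1 := by
    rw [hV2]
    exact Submodule.sub_mem _ v2 (Submodule.smul_mem _ _ hVm)
  have hd1 : ∀ ψ L, d1 V ψ L = (c * (β * Real.cos ψ + (-α) * Real.sin ψ)) • χ := by
    intro ψ L
    show deriv (fun s => V s L) ψ = _
    have h1 : HasDerivAt (fun s : ℝ => (c * (α * Real.cos s + β * Real.sin s)) • χ)
        ((c * (α * (-Real.sin ψ) + β * Real.cos ψ)) • χ) ψ :=
      (((((Real.hasDerivAt_cos ψ).const_mul α).add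
        ((Real.hasDerivAt_sin ψ).const_mul β))).const_mul c).smul_const χ
    rw [hV, h1.deriv]
    exact congrArg (fun z : ℝ => z • χ) (by ring)
  refine ⟨fun ψ τ L => τ ^ 1 • V2 ψ L + Dt p ω B ψ τ L,
    Submodule.add_mem _ (m3 1 1 V2 hV2m) (l1 1 1 B hB), ?_⟩
  intro ψ τ L
  have e1 : Dt p ω P ψ τ L = Dt p ω (fun ψ τ L => τ ^ 0 • V ψ L) ψ τ L + Dt p ω B ψ τ L := by
    rw [hPe, hD]
  have e3 : Dt p ω (fun ψ τ L => τ ^ 0 • V ψ L) ψ τ L = τ ^ 0 • (ω • d1 V ψ L) + τ ^ (0 + 1) •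
    (d2 V ψ L - (((0 : ℕ) : ℝ) + 1 / (2 * (p : ℝ))) • V ψ L) :=
    congrFun (congrFun (congrFun v5 ψ) τ) L
  have e4 : V2 ψ L = d2 V ψ L - (((0 : ℕ) : ℝ) + 1 / (2 * (p : ℝ))) • V ψ L := by rw [hV2]
  show _ = ((c * ω) * (β * Real.cos ψ + (-α) * Real.sin ψ)) • χ +
    (τ ^ 1 • V2 ψ L + Dt p ω B ψ τ L)
  rw [e1, e3, hd1, e4, pow_zero, one_smul, smul_smul, add_assoc, zero_add]
  have e2 : ω * (c * (β * Real.cos ψ + (-α) * Real.sin ψ)) =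
      (c * ω) * (β * Real.cos ψ + (-α) * Real.sin ψ) := by ring
  rw [e2]

/-- All the derivatives. -/
theorem tmr_iter {X : Type} [NormedCommRing X] [NormedAlgebra ℝ X] (lpm : LpmStmt)
    (lpd : LpdStmt) (p : ℕ) (ω : ℝ) (χ : X) (c : ℝ) (P B : ℝ → ℝ → ℝ → X)
    (hB : B ∈ LP X 1 1)
    (hP : ∀ ψ τ L, P ψ τ L = (c * (1 * Real.cos ψ + 0 * Real.sin ψ)) • χ + B ψ τ L) (j : ℕ) :
    ∃ α β : ℝ, α ^ 2 + β ^ 2 = 1 ∧ ∃ B' ∈ LP X 1 1, ∀ ψ τ L, (Dt p ω)^[j] P ψ τ L =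
      ((c * ω ^ j) * (α * Real.cos ψ + β * Real.sin ψ)) • χ + B' ψ τ L := by
  induction j with
  | zero =>
    refine ⟨1, 0, by norm_num, B, hB, ?_⟩
    intro ψ τ L
    rw [pow_zero, mul_one]
    exact hP ψ τ L
  | succ j ih =>
    obtain ⟨α, β, hab, B1, hB1, h1⟩ := ih
    obtain ⟨B2, hB2, h2⟩ := tmr_step lpm lpd p ω χ (c * ω ^ j) α β ((Dt p ω)^[j] P) B1 hB1 h1
    refine ⟨β, -α, by rw [← hab]; ring, B2, hB2, ?_⟩
    intro ψ τ L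
    rw [Function.iterate_succ_apply', h2]
    have e : c * ω ^ j * ω = c * ω ^ (j + 1) := by ring
    rw [e]

theorem tmr_trig {α β : ℝ} (h : α ^ 2 + β ^ 2 = 1) (ψ : ℝ) :
    |α * Real.cos ψ + β * Real.sin ψ| ≤ 1 := by
  rw [← sq_le_one_iff_abs_le_one]
  have e := Real.sin_sq_add_cos_sq ψ
  nlinarith [sq_nonneg (α * Real.sin ψ - β * Real.cos ψ), sq_nonneg (α * Real.cos ψ + β * Real.sin ψ)]

/-- The energy. -/
theorem tmr_en {H : Type} [NormedAddCommGroup H] [InnerProductSpace ℝ H] {x y A : ℝ}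
    (hxy : x ^ 2 + y ^ 2 = 1) (hA : 0 < A) {a b a' b' : H} (ha : ‖a‖ = A * |x|)
    (ha' : ‖a'‖ = A * |y|) (hb : ‖b‖ ≤ A / 16) (hb' : ‖b'‖ ≤ A / 16) :
    A ^ 2 / 2 ≤ ‖a + b‖ ^ 2 + ‖a' + b'‖ ^ 2 ∧ ‖a + b‖ ^ 2 + ‖a' + b'‖ ^ 2 ≤ 2 * A ^ 2 := by
  have hx0 := abs_nonneg x
  have hy0 := abs_nonneg y
  have hx1 : |x| ≤ 1 := by
    rw [← sq_le_one_iff_abs_le_one]
    nlinarith [sq_nonneg y]
  have hy1 : |y| ≤ 1 := by
    rw [← sq_le_one_iff_abs_le_one]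
    nlinarith [sq_nonneg x]
  have hs : (A * |x|) ^ 2 + (A * |y|) ^ 2 = A ^ 2 := by
    rw [mul_pow, mul_pow, sq_abs, sq_abs, ← mul_add, hxy, mul_one]
  have key : ∀ (u v : H) (z : ℝ), 0 ≤ z → z ≤ A → ‖u‖ = z → ‖v‖ ≤ A / 16 →
      z ^ 2 - A ^ 2 / 8 ≤ ‖u + v‖ ^ 2 ∧ ‖u + v‖ ^ 2 ≤ z ^ 2 + A ^ 2 / 4 := by
    intro u v z hz hzA hu hv
    have h1 : ‖u + v‖ ≤ z + A / 16 := (norm_add_le u v).trans (by rw [hu]; linarith)
    have h2 : z - A / 16 ≤ ‖u + v‖ := by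
      have h3 : ‖u‖ ≤ ‖u + v‖ + ‖v‖ := by
        calc ‖u‖ = ‖(u + v) - v‖ := by rw [add_sub_cancel_right]
          _ ≤ _ := norm_sub_le _ _
      rw [hu] at h3
      linarith
    have h0 := norm_nonneg (u + v)
    constructor
    · rcases le_or_gt z (A / 16) with h | h
      · nlinarith [sq_nonneg (‖u + v‖)]
      · nlinarith
    · nlinarith
  have k1 := key a b (A * |x|) (by positivity) (by nlinarith) ha hb
  have k2 := key a' b' (A * |y|) (by positivity) (by nlinarith) ha' hb'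
  constructor
  · nlinarith [k1.1, k2.1, sq_nonneg A]
  · nlinarith [k1.2, k2.2, sq_nonneg A]

/-- row TMR -/
theorem tmr (lpm : LpmStmt) (lpd : LpdStmt) (lpc : LpcStmt) (lpb : LpbStmt) : TmrStmt := by
  intro X H _ _ _ _ W p s a0 κ ω ρ χ hp ha0 hκ hω hρ hnrm hev hapr
  have hpp : (0 : ℝ) < p := by
    have : 0 < p := hp
    exact_mod_cast this
  obtain ⟨m1, -, m3, -, -⟩ := lpm.1 X
  obtain ⟨l1, l2, l3, l4, -⟩ := lpd X X p ω
  obtain ⟨b, hb⟩ : ∃ b, b = (max 1 ω) ^ (s + 1) * ρ * ‖χ‖ + 1 := ⟨_, rfl⟩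
  have hb0 : 0 < b := by rw [hb]; positivity
  obtain ⟨N0, hN0⟩ := exists_nat_ge (a0 * κ * b ^ (2 * p) + 3)
  have hab : 0 ≤ a0 * κ * b ^ (2 * p) := by positivity
  have hN1 : 1 ≤ N0 := by
    have h1 : (1 : ℝ) ≤ N0 := by linarith
    exact_mod_cast h1
  obtain ⟨U, q, hA⟩ := hapr N0 hN1
  obtain ⟨q', hq', hqe⟩ := hA.lead
  -- the functions
  have hcos : (fun ψ τ L => τ ^ 0 • ((ω ^ 2 * ρ * (1 * Real.cos ψ + 0 * Real.sin ψ)) • χ) :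
      ℝ → ℝ → ℝ → X) ∈ LP X 0 1 := m3 1 0 _ (tmr_TL χ (ω ^ 2 * ρ) 1 0)
  have hq01 : q' ∈ LP X 0 1 := m1 0 1 1 1 (by omega) rfl hq'
  have hq : q ∈ LP X 0 1 := by
    have e : q = (fun ψ τ L => τ ^ 0 • ((ω ^ 2 * ρ * (1 * Real.cos ψ + 0 * Real.sin ψ)) • χ) :
      ℝ → ℝ → ℝ → X) + q' := by
      funext ψ τ L
      show q ψ τ L = τ ^ 0 • ((ω ^ 2 * ρ * (1 * Real.cos ψ + 0 * Real.sin ψ)) • χ) + q' ψ τ L
      rw [hqe, pow_zero, one_smul, one_mul, zero_mul, add_zero]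
    rw [e]
    exact Submodule.add_mem _ hcos hq01
  have hUe : U = fun ψ τ L => W.SX (q ψ τ L) := by
    funext ψ τ L
    exact hA.eq ψ τ L
  obtain ⟨hSq, hDSq⟩ := l3 W.SX 0 1 q hq
  have hU : U ∈ LP X 0 1 := by
    rw [hUe]
    exact hSq
  have hDU : Dt p ω U = fun ψ τ L => W.SX (Dt p ω q ψ τ L) := by
    rw [hUe]
    exact hDSq
  obtain ⟨B0, hB0⟩ : ∃ B0 : ℝ → ℝ → ℝ → X, B0 = fun ψ τ L => W.SX (q' ψ τ L) := ⟨_, rfl⟩
  have hB0m : B0 ∈ LP X 1 1 := by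
    rw [hB0]
    exact (l3 W.SX 1 1 q' hq').1
  have hU0 : ∀ ψ τ L, U ψ τ L = (ρ * (1 * Real.cos ψ + 0 * Real.sin ψ)) • χ + B0 ψ τ L := by
    intro ψ τ L
    rw [hUe, hB0]
    show W.SX (q ψ τ L) = _ + W.SX (q' ψ τ L)
    rw [hqe, map_add, map_smul]
    have e : (ω ^ 2 * ρ * Real.cos ψ) • W.SX χ = (ρ * Real.cos ψ) • ((ω ^ 2) • W.SX χ) := by
      rw [smul_smul]
      exact congrArg (fun z : ℝ => z • W.SX χ) (by ring)
    rw [e, hev, one_mul, zero_mul, add_zero]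
  have hiter := tmr_iter lpm lpd p ω χ ρ U B0 hB0m hU0
  obtain ⟨B1, hB1, hU1⟩ := tmr_step lpm lpd p ω χ ρ 1 0 U B0 hB0m hU0
  have hDit : ∀ (N : ℕ) (P : ℝ → ℝ → ℝ → X), P ∈ LP X N 1 → ∀ j : ℕ, (Dt p ω)^[j] P ∈ LP X N 1 := by
    intro N P hP j
    induction j with
    | zero => exact hP
    | succ j ih =>
      rw [Function.iterate_succ_apply']
      exact l1 N 1 _ ih
  -- bounds
  have hbd1 : ∀ B ∈ LP X 1 1, ∃ C : ℝ, 0 ≤ C ∧ ∀ ψ t : ℝ, 1 ≤ t →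
      ‖B ψ (1 / t) (Real.log t)‖ ≤ C * t ^ (-(1 / 2 : ℝ)) := by
    intro B hB
    obtain ⟨⟨C, hC, h⟩, -⟩ := lpb X 1 1 B hB
    refine ⟨C, hC, fun ψ t ht => ?_⟩
    have h1 := h ψ t ht
    have e : (1 / 2 : ℝ) - ((1 : ℕ) : ℝ) = -(1 / 2 : ℝ) := by norm_num
    rwa [e] at h1
  have hwj : ∀ j : ℕ, ∃ C : ℝ, 0 ≤ C ∧ ∀ ψ t : ℝ, 1 ≤ t →
      ‖(Dt p ω)^[j + 1] U ψ (1 / t) (Real.log t)‖ ≤
        ω ^ (j + 1) * ρ * ‖χ‖ + C * t ^ (-(1 / 2 : ℝ)) := by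
    intro j
    obtain ⟨α, β, hαβ, B', hB', h⟩ := hiter (j + 1)
    obtain ⟨C, hC, hCb⟩ := hbd1 B' hB'
    refine ⟨C, hC, fun ψ t ht => ?_⟩
    rw [h]
    refine (norm_add_le _ _).trans (add_le_add ?_ (hCb ψ t ht))
    rw [norm_smul, Real.norm_eq_abs, abs_mul, abs_of_pos (by positivity : 0 < ρ * ω ^ (j + 1))]
    have h1 := tmr_trig hαβ ψ
    calc ρ * ω ^ (j + 1) * |α * Real.cos ψ + β * Real.sin ψ| * ‖χ‖
        ≤ ρ * ω ^ (j + 1) * 1 * ‖χ‖ := by gcongr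
      _ = _ := by ring
  choose Cj hCj hCjb using hwj
  obtain ⟨Cb, hCb, hCbb⟩ := hbd1 B1 hB1
  obtain ⟨Cq, hCq, hCqb⟩ := hbd1 q' hq'
  obtain ⟨Cm, hCm⟩ : ∃ Cm, Cm = (∑ j ∈ Finset.range (s + 1), Cj j) + ‖W.e‖ * Cb +
    ‖W.R‖ * (‖W.e‖ * Cq) := ⟨_, rfl⟩
  have hCj0 : 0 ≤ ∑ j ∈ Finset.range (s + 1), Cj j := Finset.sum_nonneg fun i _ => hCj i
  have hCb0 : 0 ≤ ‖W.e‖ * Cb := by positivity
  have hCq0 : 0 ≤ ‖W.R‖ * (‖W.e‖ * Cq) := by positivity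
  have hCm0 : 0 ≤ Cm := by rw [hCm]; positivity
  have hlim : Tendsto (fun t : ℝ => Cm * t ^ (-(1 / 2 : ℝ))) atTop (𝓝 0) := by
    have h := (tendsto_rpow_neg_atTop (by norm_num : (0 : ℝ) < 1 / 2)).const_mul Cm
    rwa [mul_zero] at h
  have hε : 0 < min 1 (ω * ρ / 16) := lt_min one_pos (by positivity)
  obtain ⟨T0, hT0⟩ := (hlim.eventually_lt_const hε).exists_forall_of_atTop
  obtain ⟨T, hT⟩ : ∃ T, T = max 1 T0 := ⟨_, rfl⟩
  have hT1 : 1 ≤ T := by rw [hT]; exact le_max_left _ _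
  have hTt : ∀ t > T, 1 ≤ t := fun t ht => hT1.trans (le_of_lt ht)
  have hTpos : ∀ t > T, 0 < t := fun t ht => lt_of_lt_of_le one_pos (hTt t ht)
  have hTε : ∀ t > T, Cm * t ^ (-(1 / 2 : ℝ)) ≤ 1 ∧ Cm * t ^ (-(1 / 2 : ℝ)) ≤ ω * ρ / 16 := by
    intro t ht
    have h1 : T0 ≤ T := by rw [hT]; exact le_max_right _ _
    have h := hT0 t (h1.trans (le_of_lt ht))
    exact ⟨(le_of_lt h).trans (min_le_left _ _), (le_of_lt h).trans (min_le_right _ _)⟩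
  -- the residual
  have hRm := hDit (N0 + 1) _ hA.res
  have hRb : ∀ j : ℕ, ∃ C : ℝ, 0 ≤ C ∧ ∀ ψ t : ℝ, 1 ≤ t →
      ‖(Dt p ω)^[j] (Rs p a0 ω U q) ψ (1 / t) (Real.log t)‖ ≤
        C * t ^ ((1 / 2 : ℝ) - ((N0 + 1 : ℕ) : ℝ)) :=
    fun j => (lpb X (N0 + 1) 1 _ (hRm j)).1
  choose Nj hNj hNb using hRb
  obtain ⟨k, hk⟩ : ∃ k : ℝ, k = (N0 : ℝ) + 1 / 2 + 1 / (2 * (p : ℝ)) := ⟨_, rfl⟩
  have hpp2 : 0 < 1 / (2 * (p : ℝ)) := by positivity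
  refine ⟨k, T, b, ∑ j ∈ Finset.range (s + 1), Nj j, (ω * ρ) ^ 2 / 2, 2 * (ω * ρ) ^ 2,
    fun j t => t ^ (-(1 / (2 * (p : ℝ)))) • (Dt p ω)^[j + 1] U (ω * t) (1 / t) (Real.log t),
    fun j t => t ^ (-(1 / (2 * (p : ℝ)))) •
      (Dt p ω)^[j] (Rs p a0 ω U q) (ω * t) (1 / t) (Real.log t),
    fun t => t ^ (-(1 / (2 * (p : ℝ)))) • q (ω * t) (1 / t) (Real.log t),
    by rw [hk]; linarith, by rw [hk]; linarith, ?_⟩
  refine
    { t1_le := hT1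
      c_pos := by positivity
      w_der := ?_
      w_cont := ?_
      w_le := ?_
      r_der := ?_
      r_cont := ?_
      r_le := ?_
      w_SX := ?_
      g_cont := ?_
      g_der := ?_
      res := ?_
      en := ?_ }
  · intro j _ t ht
    have h := lpc X p 0 1 ω hp _ (hDit 0 U hU (j + 1)) t (hTpos t ht)
    rw [← Function.iterate_succ_apply' (Dt p ω) (j + 1) U] at h
    exact h
  · exact fun t ht =>
      (lpc X p 0 1 ω hp _ (hDit 0 U hU (s + 1)) t (hTpos t ht)).continuousAt.continuousWithinAt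
  · intro j hj t ht
    have ht1 := hTt t ht
    have htp := hTpos t ht
    have e1 := hCjb j (ω * t) t ht1
    have e2 : Cj j * t ^ (-(1 / 2 : ℝ)) ≤ 1 := by
      refine le_trans ?_ (hTε t ht).1
      refine mul_le_mul_of_nonneg_right ?_ (by positivity)
      have e3 : Cj j ≤ ∑ j ∈ Finset.range (s + 1), Cj j :=
        Finset.single_le_sum (f := Cj) (fun i _ => hCj i) (Finset.mem_range.2 (by omega))
      rw [hCm]
      linarith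
    have e4 : ω ^ (j + 1) ≤ (max 1 ω) ^ (s + 1) := by
      calc ω ^ (j + 1) ≤ (max 1 ω) ^ (j + 1) :=
            pow_le_pow_left₀ hω.le (le_max_right _ _) _
        _ ≤ (max 1 ω) ^ (s + 1) := pow_le_pow_right₀ (le_max_left _ _) (by omega)
    have e5 : ‖(Dt p ω)^[j + 1] U (ω * t) (1 / t) (Real.log t)‖ ≤ b := by
      refine e1.trans ?_
      rw [hb]
      refine add_le_add ?_ e2
      have h0 := norm_nonneg χ
      gcongr
    show ‖t ^ (-(1 / (2 * (p : ℝ)))) • (Dt p ω)^[j + 1] U (ω * t) (1 / t) (Real.log t)‖ ≤ _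
    rw [norm_smul, Real.norm_of_nonneg (by positivity), mul_comm]
    exact mul_le_mul_of_nonneg_right e5 (by positivity)
  · intro j _ t ht
    have h := lpc X p (N0 + 1) 1 ω hp _ (hRm j) t (hTpos t ht)
    rw [← Function.iterate_succ_apply' (Dt p ω) j (Rs p a0 ω U q)] at h
    exact h
  · exact fun t ht =>
      (lpc X p (N0 + 1) 1 ω hp _ (hRm s) t (hTpos t ht)).continuousAt.continuousWithinAt
  · intro j hj t ht
    have htp := hTpos t ht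
    have e0 := hNb j (ω * t) t (hTt t ht)
    have e4 : Nj j ≤ ∑ j ∈ Finset.range (s + 1), Nj j :=
      Finset.single_le_sum (f := Nj) (fun i _ => hNj i) (Finset.mem_range.2 (by omega))
    show ‖t ^ (-(1 / (2 * (p : ℝ)))) •
      (Dt p ω)^[j] (Rs p a0 ω U q) (ω * t) (1 / t) (Real.log t)‖ ≤ _
    rw [norm_smul, Real.norm_of_nonneg (by positivity)]
    have e5 : t ^ (-k) = t ^ (-(1 / (2 * (p : ℝ)))) * t ^ ((1 / 2 : ℝ) - ((N0 + 1 : ℕ) : ℝ)) := by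
      rw [← Real.rpow_add htp]
      refine congrArg (fun z : ℝ => t ^ z) ?_
      rw [hk]
      push_cast
      ring
    rw [e5]
    have e6 : 0 ≤ t ^ (-(1 / (2 * (p : ℝ)))) := by positivity
    have e7 : 0 ≤ t ^ ((1 / 2 : ℝ) - ((N0 + 1 : ℕ) : ℝ)) := by positivity
    calc t ^ (-(1 / (2 * (p : ℝ)))) *
        ‖(Dt p ω)^[j] (Rs p a0 ω U q) (ω * t) (1 / t) (Real.log t)‖
        ≤ t ^ (-(1 / (2 * (p : ℝ)))) * (Nj j * t ^ ((1 / 2 : ℝ) - ((N0 + 1 : ℕ) : ℝ))) :=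
          mul_le_mul_of_nonneg_left e0 e6
      _ ≤ t ^ (-(1 / (2 * (p : ℝ)))) * ((∑ j ∈ Finset.range (s + 1), Nj j) *
            t ^ ((1 / 2 : ℝ) - ((N0 + 1 : ℕ) : ℝ))) :=
          mul_le_mul_of_nonneg_left (mul_le_mul_of_nonneg_right e4 e7) e6
      _ = _ := by ring
  · intro t ht
    refine ⟨t ^ (-(1 / (2 * (p : ℝ)))) • Dt p ω q (ω * t) (1 / t) (Real.log t), ?_⟩
    show t ^ (-(1 / (2 * (p : ℝ)))) • Dt p ω U (ω * t) (1 / t) (Real.log t) = _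
    rw [hDU, map_smul]
  · exact fun t ht =>
      (lpc X p 0 1 ω hp q hq t (hTpos t ht)).continuousAt.continuousWithinAt
  · intro t ht
    have e1 := lpc X p 0 1 ω hp U hU t (hTpos t ht)
    have e2 : (fun r : ℝ => W.SX (r ^ (-(1 / (2 * (p : ℝ)))) • q (ω * r) (1 / r) (Real.log r))) =
        fun r => r ^ (-(1 / (2 * (p : ℝ)))) • U (ω * r) (1 / r) (Real.log r) := by
      funext r
      rw [map_smul, hUe]
    show HasDerivAt
      (fun r : ℝ => W.SX (r ^ (-(1 / (2 * (p : ℝ)))) • q (ω * r) (1 / r) (Real.log r)))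
      (t ^ (-(1 / (2 * (p : ℝ)))) • Dt p ω U (ω * t) (1 / t) (Real.log t)) t
    rw [e2]
    exact e1
  · intro t ht
    have htp := hTpos t ht
    show t ^ (-(1 / (2 * (p : ℝ)))) •
        (Dt p ω (Dt p ω U) (ω * t) (1 / t) (Real.log t) + q (ω * t) (1 / t) (Real.log t) +
          (a0 * (1 / t)) • (Dt p ω U (ω * t) (1 / t) (Real.log t)) ^ (2 * p + 1)) =
      t ^ (-(1 / (2 * (p : ℝ)))) • Dt p ω (Dt p ω U) (ω * t) (1 / t) (Real.log t) +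
        t ^ (-(1 / (2 * (p : ℝ)))) • q (ω * t) (1 / t) (Real.log t) +
        a0 • ((t ^ (-(1 / (2 * (p : ℝ)))) •
          Dt p ω U (ω * t) (1 / t) (Real.log t)) ^ (2 * p + 1))
    have e1 : (t ^ (-(1 / (2 * (p : ℝ))))) ^ (2 * p + 1) =
        t ^ (-(1 / (2 * (p : ℝ)))) * (1 / t) := by
      rw [← Real.rpow_natCast, ← Real.rpow_mul htp.le]
      have e2 : -(1 / (2 * (p : ℝ))) * ((2 * p + 1 : ℕ) : ℝ) = -(1 / (2 * (p : ℝ))) + (-1) := by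
        push_cast
        field_simp
        ring
      rw [e2, Real.rpow_add htp, Real.rpow_neg_one, one_div t]
    rw [smul_pow, e1, smul_add, smul_add, smul_smul, smul_smul]
    have e3 : t ^ (-(1 / (2 * (p : ℝ)))) * (a0 * (1 / t)) =
        a0 * (t ^ (-(1 / (2 * (p : ℝ)))) * (1 / t)) := by ring
    rw [e3]
  · intro t ht
    have htp := hTpos t ht
    have ht1 := hTt t ht
    obtain ⟨z, hz⟩ : ∃ z : ℝ, z = t ^ (-(1 / (2 * (p : ℝ)))) := ⟨_, rfl⟩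
    have hz0 : 0 < z := by rw [hz]; positivity
    have hz2 : z ^ 2 = t ^ (-(1 / (p : ℝ))) := by
      rw [hz, ← Real.rpow_natCast, ← Real.rpow_mul htp.le]
      refine congrArg (fun y : ℝ => t ^ y) ?_
      push_cast
      field_simp
    show (ω * ρ) ^ 2 / 2 * t ^ (-(1 / (p : ℝ))) ≤
        ‖W.e (t ^ (-(1 / (2 * (p : ℝ)))) • Dt p ω U (ω * t) (1 / t) (Real.log t))‖ ^ 2 +
        ‖W.R (W.e (t ^ (-(1 / (2 * (p : ℝ)))) • q (ω * t) (1 / t) (Real.log t)))‖ ^ 2 ∧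
      ‖W.e (t ^ (-(1 / (2 * (p : ℝ)))) • Dt p ω U (ω * t) (1 / t) (Real.log t))‖ ^ 2 +
        ‖W.R (W.e (t ^ (-(1 / (2 * (p : ℝ)))) • q (ω * t) (1 / t) (Real.log t)))‖ ^ 2 ≤
      2 * (ω * ρ) ^ 2 * t ^ (-(1 / (p : ℝ)))
    have nsq : ∀ x : H, ‖z • x‖ ^ 2 = z ^ 2 * ‖x‖ ^ 2 := by
      intro x
      rw [norm_smul, Real.norm_of_nonneg hz0.le, mul_pow]
    rw [← hz2, ← hz, map_smul, map_smul, map_smul, nsq, nsq, ← mul_add, hU1, hqe, map_add,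
      map_add, map_add, map_smul, map_smul, map_smul]
    -- the norm of `R e χ`
    have hR : ω ^ 2 * ‖W.R (W.e χ)‖ ^ 2 = 1 := by
      rw [← real_inner_self_eq_norm_sq, W.prp.R_symm, W.prp.RR, ← W.e_SX,
        ← real_inner_smul_right, ← map_smul, hev, real_inner_self_eq_norm_sq, hnrm, one_pow]
    have hR1 : ω * ‖W.R (W.e χ)‖ = 1 := by
      have h0 : 0 ≤ ω * ‖W.R (W.e χ)‖ := by positivity
      have h1 : (ω * ‖W.R (W.e χ)‖) ^ 2 = 1 := by rw [mul_pow]; exact hR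
      exact (pow_eq_one_iff_of_nonneg h0 two_ne_zero).1 h1
    have hA0 : 0 < ω * ρ := by positivity
    have hxy : Real.sin (ω * t) ^ 2 + Real.cos (ω * t) ^ 2 = 1 := Real.sin_sq_add_cos_sq _
    have n1 : ‖(ρ * ω * (0 * Real.cos (ω * t) + -1 * Real.sin (ω * t))) • W.e χ‖ =
        ω * ρ * |Real.sin (ω * t)| := by
      rw [norm_smul, hnrm, mul_one, Real.norm_eq_abs]
      have e : ρ * ω * (0 * Real.cos (ω * t) + -1 * Real.sin (ω * t)) =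
          -(ω * ρ * Real.sin (ω * t)) := by ring
      rw [e, abs_neg, abs_mul, abs_of_pos hA0]
    have n2 : ‖(ω ^ 2 * ρ * Real.cos (ω * t)) • W.R (W.e χ)‖ =
        ω * ρ * |Real.cos (ω * t)| := by
      rw [norm_smul, Real.norm_eq_abs, abs_mul, abs_of_pos (by positivity : 0 < ω ^ 2 * ρ)]
      calc ω ^ 2 * ρ * |Real.cos (ω * t)| * ‖W.R (W.e χ)‖
          = ω * ρ * |Real.cos (ω * t)| * (ω * ‖W.R (W.e χ)‖) := by ring
        _ = _ := by rw [hR1, mul_one]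
    have ht0 : 0 ≤ t ^ (-(1 / 2 : ℝ)) := by positivity
    have n3 : ‖W.e (B1 (ω * t) (1 / t) (Real.log t))‖ ≤ ω * ρ / 16 := by
      refine ((W.e.le_opNorm _).trans (mul_le_mul_of_nonneg_left (hCbb (ω * t) t ht1)
        (norm_nonneg _))).trans ?_
      refine le_trans ?_ (hTε t ht).2
      rw [← mul_assoc]
      refine mul_le_mul_of_nonneg_right ?_ ht0
      rw [hCm]
      linarith
    have n4 : ‖W.R (W.e (q' (ω * t) (1 / t) (Real.log t)))‖ ≤ ω * ρ / 16 := by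
      have h1 : ‖W.e (q' (ω * t) (1 / t) (Real.log t))‖ ≤ ‖W.e‖ * (Cq * t ^ (-(1 / 2 : ℝ))) :=
        (W.e.le_opNorm _).trans (mul_le_mul_of_nonneg_left (hCqb (ω * t) t ht1)
          (norm_nonneg _))
      refine ((W.R.le_opNorm _).trans (mul_le_mul_of_nonneg_left h1 (norm_nonneg _))).trans ?_
      refine le_trans ?_ (hTε t ht).2
      have e : ‖W.R‖ * (‖W.e‖ * (Cq * t ^ (-(1 / 2 : ℝ)))) =
          (‖W.R‖ * (‖W.e‖ * Cq)) * t ^ (-(1 / 2 : ℝ)) := by ring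
      rw [e]
      refine mul_le_mul_of_nonneg_right ?_ ht0
      rw [hCm]
      linarith
    obtain ⟨r1, r2⟩ := tmr_en hxy hA0 n1 n2 n3 n4
    have hz3 : 0 ≤ z ^ 2 := sq_nonneg z
    constructor
    · calc (ω * ρ) ^ 2 / 2 * z ^ 2 = z ^ 2 * ((ω * ρ) ^ 2 / 2) := by ring
        _ ≤ _ := mul_le_mul_of_nonneg_left r1 hz3
    · calc _ ≤ z ^ 2 * (2 * (ω * ρ) ^ 2) := mul_le_mul_of_nonneg_left r2 hz3
        _ = _ := by ring

end

end Pool.Agent.BER.H19
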